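import Pool.Agent.H47.SQ.Targets3

/-!
The savings of backtracking search on random k-CNFs (MP_c62aed_lc): row XCN.
-/

set_option autoImplicit false

namespace Pool.Agent.H47.SR

open Finset Pool.Agent.H97.RK Pool.Agent.H41.SS
open Pool.Agent.H47.PL (Sat Agr Con dm nsol Os)

theorem pf_XCN : T_XCN := by
  classical
  intro n k m F t t₁ d u u₁ x _
  constructor
  · intro hG A W hA hW hc W'' J'' _ hAW hJ hal hWJ hN
    have h1 : (univ.filter fun c => (∀ i, (F c i).1 ∈ ((A ∪ pre n (n - u)) \ W'') ∪ W'') ∧
        Al F x ((A ∪ pre n (n - u)) \ W'') c).card < t := by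
      refine hG _ _ disjoint_sdiff_self_left (by omega) ?_ ?_ ?_
      · refine (card_le_card ?_).trans hW
        intro v hv
        rw [mem_inter] at hv ⊢
        exact ⟨hAW v (hA hv.2) hv.1, hv.2⟩
      · have h2 := card_le_card (sdiff_subset : (A ∪ pre n (n - u)) \ W'' ⊆ A ∪ pre n (n - u))
        omega
      · intro v hv
        by_cases h3 : v ∈ W''
        · exact mem_union_right _ h3
        · exact mem_union_left _ (mem_sdiff.2 ⟨mem_union_right _ hv, h3⟩)
    have h2 : J''.card ≤ _ := card_le_card (t := univ.filter fun c =>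
        (∀ i, (F c i).1 ∈ ((A ∪ pre n (n - u)) \ W'') ∪ W'') ∧
        Al F x ((A ∪ pre n (n - u)) \ W'') c) (by
      intro c hc'
      rw [mem_filter]
      refine ⟨mem_univ _, fun i => ?_, fun i hi => ?_⟩
      · rcases mem_union.1 (hJ c hc' i) with h3 | h3
        · by_cases h4 : (F c i).1 ∈ W''
          · exact mem_union_right _ h4
          · exact mem_union_left _ (mem_sdiff.2 ⟨mem_union_left _ h3, h4⟩)
        · exact mem_union_right _ h3
      · rw [mem_sdiff] at hi
        rcases mem_union.1 (hJ c hc' i) with h3 | h3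
        · exact hal c hc' i (mem_sdiff.2 ⟨h3, hi.2⟩)
        · exact absurd h3 hi.2)
    omega
  · intro hG ht i W hi W'' J'' _ _ hJ hal hWJ hN
    by_contra hlt
    have h1 := hG J''.card W'' (by omega) (by omega) hWJ
    have h0 : pre n i ⊆ pre n (n - u₁) := by
      intro v hv
      unfold pre at hv ⊢
      rw [mem_filter] at hv ⊢
      exact ⟨mem_univ _, by omega⟩
    have h2 : J''.card ≤ _ := card_le_card (t := univ.filter fun c =>
        (∀ i, (F c i).1 ∈ pre n (n - u₁) ∪ W'') ∧ Al F x (pre n (n - u₁) \ W'') c) (by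
      intro c hc'
      rw [mem_filter]
      refine ⟨mem_univ _, fun j => ?_, fun j hj => ?_⟩
      · rcases mem_union.1 (hJ c hc' j) with h3 | h3
        · exact mem_union_left _ (h0 h3)
        · exact mem_union_right _ h3
      · rw [mem_sdiff] at hj
        rcases mem_union.1 (hJ c hc' j) with h3 | h3
        · exact hal c hc' j (mem_sdiff.2 ⟨h3, hj.2⟩)
        · exact absurd h3 hj.2)
    have h4 : (univ.filter fun c => (∀ i, (F c i).1 ∈ pre n (n - u₁) ∪ W'') ∧
        Al F x (pre n (n - u₁) \ W'') c).card < J''.card := by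
      convert h1
    omega

end Pool.Agent.H47.SR
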