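import Pool.Agent.H47.SQ.Targets3

/-!
The savings of backtracking search on random k-CNFs (MP_c62aed_lc): row XSQ.
-/

set_option autoImplicit false

namespace Pool.Agent.H47.SR

open Finset Pool.Agent.H97.RK Pool.Agent.H41.SS
open Pool.Agent.H47.PL (Sat Agr Con dm nsol Os)

theorem pf_XSQ : T_XSQ := by
  classical
  intro n C D e Ex Res hR hD τ hτ
  have hmem : ∀ i (p : Fin n × Bool), p ∈ gr τ i ↔ p.1.1 < i ∧ τ p.1 = p.2 := by
    intro i p
    unfold gr pre
    rw [mem_image]
    constructor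
    · rintro ⟨u, hu, rfl⟩
      exact ⟨(mem_filter.1 hu).2, rfl⟩
    · rintro ⟨h1, h2⟩
      exact ⟨p.1, mem_filter.2 ⟨mem_univ _, h1⟩, Prod.ext rfl h2⟩
  have hcard : ∀ i, (gr τ i).card ≤ i := by
    intro i
    unfold gr pre
    refine card_image_le.trans ?_
    have h1 : ((univ.filter fun v : Fin n => v.1 < i).image fun v => v.1) ⊆ range i := by
      intro x hx
      obtain ⟨v, hv, rfl⟩ := mem_image.1 hx
      exact mem_range.2 (mem_filter.1 hv).2
    have h2 := card_le_card h1
    rwa [card_image_of_injective _ Fin.val_injective, card_range] at h2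
  have hsucc : ∀ v : Fin n, gr τ (v.1 + 1) = insert (v, τ v) (gr τ v.1) := by
    intro v
    ext p
    rw [mem_insert, hmem, hmem]
    constructor
    · rintro ⟨h1, h2⟩
      rcases Nat.lt_succ_iff_lt_or_eq.1 h1 with h3 | h3
      · exact Or.inr ⟨h3, h2⟩
      · have h4 : p.1 = v := Fin.ext h3
        exact Or.inl (Prod.ext h4 (by rw [← h2, h4]))
    · rintro (h1 | h1)
      · rw [h1]
        exact ⟨Nat.lt_succ_self _, rfl⟩
      · exact ⟨Nat.lt_succ_of_lt h1.1, h1.2⟩
  have hnew : ∀ v : Fin n, v ∉ dm (gr τ v.1) := by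
    intro v h
    unfold dm at h
    rw [mem_image] at h
    obtain ⟨p, hp, hpv⟩ := h
    rw [hmem, hpv] at hp
    exact lt_irrefl _ hp.1
  have hagr : ∀ v : Fin n, Agr τ (insert (v, τ v) (gr τ v.1)) := by
    intro v p hp
    rw [mem_insert, hmem] at hp
    rcases hp with hp | hp
    · rw [hp]
    · exact hp.2
  have hmain : ∀ i, i ≤ D → ∃ W, Res (gr τ i) W ∧ ∀ v : Fin n, v.1 < i →
      Ex (insert (v, !τ v) (gr τ v.1)) → v ∈ W := by
    intro i
    induction i with
    | zero =>
      intro _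
      obtain ⟨W, hW⟩ := hR.init
      have h0 : gr τ 0 = ∅ := by
        unfold gr pre
        simp
      exact ⟨W, by rw [h0]; exact hW, fun v hv => absurd hv (Nat.not_lt_zero _)⟩
    | succ i ih =>
      intro hi
      obtain ⟨W, hW, hW2⟩ := ih (by omega)
      obtain ⟨v, hv⟩ : ∃ v : Fin n, v.1 = i := ⟨⟨i, by omega⟩, rfl⟩
      rw [← hv] at hW
      have h1 : (gr τ v.1).card < D := by
        have := hcard v.1
        omega
      obtain ⟨W', hWW, hW'⟩ := hR.step (gr τ v.1) W v (τ v) τ hW h1 (hnew v) hτ (hagr v)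
      rw [← hsucc v, hv] at hW'
      refine ⟨W', hW', fun w hw hex => ?_⟩
      rcases Nat.lt_succ_iff_lt_or_eq.1 hw with h2 | h2
      · exact hWW (hW2 w h2 hex)
      · have h3 : w = v := Fin.ext (by omega)
        rw [h3] at hex ⊢
        by_contra h4
        exact hR.free (gr τ v.1) W v (τ v) τ hW h1 (hnew v) (fun h5 => h4 (hWW h5)) hτ (hagr v)
          hex
  obtain ⟨W, hW, hW2⟩ := hmain D le_rfl
  have h1 := hR.card _ _ hW
  unfold exc
  have h2 : (univ.filter fun v : Fin n => Ex (insert (v, !τ v) (gr τ v.1))) ⊆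
      (univ.filter fun v : Fin n => D ≤ v.1) ∪ W := by
    intro v hv
    rw [mem_filter] at hv
    by_cases h3 : v.1 < D
    · exact mem_union_right _ (hW2 v h3 hv.2)
    · exact mem_union_left _ (mem_filter.2 ⟨mem_univ _, by omega⟩)
  have h3 : (univ.filter fun v : Fin n => D ≤ v.1).card ≤ n - D := by
    have h4 : ((univ.filter fun v : Fin n => D ≤ v.1).image fun v => v.1) ⊆ Ico D n := by
      intro x hx
      obtain ⟨v, hv, rfl⟩ := mem_image.1 hx
      exact mem_Ico.2 ⟨(mem_filter.1 hv).2, v.2⟩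
    have h5 := card_le_card h4
    rwa [card_image_of_injective _ Fin.val_injective, Nat.card_Ico] at h5
  have h4 := (card_le_card h2).trans (card_union_le _ _)
  omega

end Pool.Agent.H47.SR
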